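import Pool.Agent.W580.SH.StmB

/-! Project SH, part PRISM: inequalities from a prism. -/

set_option autoImplicit false
set_option linter.unusedSimpArgs false

namespace Pool.Agent.W138.SH

open Finset Pool.Agent.W580.SH

lemma aux {R : Type} {A : Set (R → ℤ)} {O : R → ℝ} {θ : ℝ} (H : KeyProp A O θ) (l j k : R)
    (p : Fin 4 → (R → ℤ)) (hp : ∀ b, p b ∈ A) (M : Matrix (Fin 4) (Fin 4) ℤ)
    (h0 : ∀ b, M 0 b = 1) (h1 : ∀ b, M 1 b = p b l) (h2 : ∀ b, M 2 b = p b j)
    (h3 : ∀ b, M 3 b = p b k) (hdet : M.det ≠ 0) (w : Fin 4 → ℝ) (hw : ∑ b, w b = 1)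
    (w1 : ∑ b, w b * (M 1 b : ℝ) = O l) (w2 : ∑ b, w b * (M 2 b : ℝ) = O j)
    (w3 : ∑ b, w b * (M 3 b : ℝ) = O k) : -θ ≤ w 2 := by
  have hM : oneMat ![l, j, k] p = M := by
    ext a b
    fin_cases a
    · exact (h0 b).symm
    · exact (h1 b).symm
    · exact (h2 b).symm
    · exact (h3 b).symm
  have h := (H 3 ![l, j, k] p hp).2 (by rw [hM]; exact hdet) w hw (by
    intro a
    fin_cases a
    · show ∑ b, w b * ((p b l : ℤ) : ℝ) = O l
      rw [← w1]
      exact Finset.sum_congr rfl fun b _ => by rw [h1 b]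
    · show ∑ b, w b * ((p b j : ℤ) : ℝ) = O j
      rw [← w2]
      exact Finset.sum_congr rfl fun b _ => by rw [h2 b]
    · show ∑ b, w b * ((p b k : ℤ) : ℝ) = O k
      rw [← w3]
      exact Finset.sum_congr rfl fun b _ => by rw [h3 b]) {2}
  rwa [Finset.sum_singleton] at h

lemma det1 (e g : ℤ) (he : e = 0 ∨ e = 1) (hg : g = 0 ∨ g = 1) :
    (!![1, 1, 1, 1; 1, 1, 1, 0; e, 1 - e, 1 - e, 1 - e; 1 - g, g, 1 - g, 1 - g] :
      Matrix (Fin 4) (Fin 4) ℤ).det ≠ 0 := by
  rcases he with rfl | rfl <;> rcases hg with rfl | rfl <;>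
    simp [Matrix.det_succ_row_zero, Fin.sum_univ_succ, Fin.succAbove]

lemma det2 (e g : ℤ) (he : e = 0 ∨ e = 1) (hg : g = 0 ∨ g = 1) :
    (!![1, 1, 1, 1; 1, 1, 1, 0; 1 - e, 1 - e, e, e; 1 - g, g, 1 - g, 1 - g] :
      Matrix (Fin 4) (Fin 4) ℤ).det ≠ 0 := by
  rcases he with rfl | rfl <;> rcases hg with rfl | rfl <;>
    simp [Matrix.det_succ_row_zero, Fin.sum_univ_succ, Fin.succAbove]

lemma det3 (e g : ℤ) (he : e = 0 ∨ e = 1) (hg : g = 0 ∨ g = 1) :
    (!![1, 1, 1, 1; 1, 1, 1, 0; 1 - e, e, 1 - e, 1 - e; 1 - g, 1 - g, g, g] :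
      Matrix (Fin 4) (Fin 4) ℤ).det ≠ 0 := by
  rcases he with rfl | rfl <;> rcases hg with rfl | rfl <;>
    simp [Matrix.det_succ_row_zero, Fin.sum_univ_succ, Fin.succAbove]

lemma orient_eq (e : ℤ) (he : e = 0 ∨ e = 1) (o : ℝ) :
    orient e o * e + (1 - orient e o) * (1 - e) = o := by
  unfold orient
  rcases he with rfl | rfl <;> simp

theorem main : S_PRISM := by
  intro R _ _ I A O θ H l j k e g u v he hg hP
  obtain ⟨hP, a1, a2, b1, b2, c1, c2⟩ := hP
  have hj := orient_eq e he (O j)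
  have hk := orient_eq g hg (O k)
  set x := orient e (O j) with hx
  set y := orient g (O k) with hy
  have hu : ∀ i, u i ∈ (A : Set (R → ℤ)) := fun i => (hP i).1
  have hv : ∀ i, v i ∈ (A : Set (R → ℤ)) := fun i => (hP i).2.1
  have e0 := hP 0
  have e1 := hP 1
  have e2 := hP 2
  refine ⟨?_, ?_, ?_⟩
  · have h := aux H.key l j k ![u 1, u 2, u 0, v 0] (by
      intro b; fin_cases b
      · exact hu 1
      · exact hu 2
      · exact hu 0
      · exact hv 0)
      !![1, 1, 1, 1; 1, 1, 1, 0; e, 1 - e, 1 - e, 1 - e; 1 - g, g, 1 - g, 1 - g]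
      (by intro b; fin_cases b <;> rfl)
      (by intro b; fin_cases b <;> simp [e0, e1, e2])
      (by intro b; fin_cases b <;> simp [e0, e1, e2, a1, a2, b1, b2, c1, c2])
      (by intro b; fin_cases b <;> simp [e0, e1, e2, a1, a2, b1, b2, c1, c2])
      (det1 e g he hg) ![x, y, O l - x - y, 1 - O l]
      (by simp [Fin.sum_univ_four])
      (by simp [Fin.sum_univ_four])
      (by simp [Fin.sum_univ_four]; linarith)
      (by simp [Fin.sum_univ_four]; linarith)
    have h' : -θ ≤ O l - x - y := h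
    linarith
  · have h := aux H.key l j k ![u 0, u 2, u 1, v 1] (by
      intro b; fin_cases b
      · exact hu 0
      · exact hu 2
      · exact hu 1
      · exact hv 1)
      !![1, 1, 1, 1; 1, 1, 1, 0; 1 - e, 1 - e, e, e; 1 - g, g, 1 - g, 1 - g]
      (by intro b; fin_cases b <;> rfl)
      (by intro b; fin_cases b <;> simp [e0, e1, e2])
      (by intro b; fin_cases b <;> simp [e0, e1, e2, a1, a2, b1, b2, c1, c2])
      (by intro b; fin_cases b <;> simp [e0, e1, e2, a1, a2, b1, b2, c1, c2])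
      (det2 e g he hg) ![1 - x - y, y, O l + x - 1, 1 - O l]
      (by simp [Fin.sum_univ_four])
      (by simp [Fin.sum_univ_four])
      (by simp [Fin.sum_univ_four]; linarith)
      (by simp [Fin.sum_univ_four]; linarith)
    have h' : -θ ≤ O l + x - 1 := h
    linarith
  · have h := aux H.key l j k ![u 0, u 1, u 2, v 2] (by
      intro b; fin_cases b
      · exact hu 0
      · exact hu 1
      · exact hu 2
      · exact hv 2)
      !![1, 1, 1, 1; 1, 1, 1, 0; 1 - e, e, 1 - e, 1 - e; 1 - g, 1 - g, g, g]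
      (by intro b; fin_cases b <;> rfl)
      (by intro b; fin_cases b <;> simp [e0, e1, e2])
      (by intro b; fin_cases b <;> simp [e0, e1, e2, a1, a2, b1, b2, c1, c2])
      (by intro b; fin_cases b <;> simp [e0, e1, e2, a1, a2, b1, b2, c1, c2])
      (det3 e g he hg) ![1 - x - y, x, O l + y - 1, 1 - O l]
      (by simp [Fin.sum_univ_four]; ring)
      (by simp [Fin.sum_univ_four]; ring)
      (by simp [Fin.sum_univ_four]; linarith)
      (by simp [Fin.sum_univ_four]; linarith)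
    have h' : -θ ≤ O l + y - 1 := h
    linarith

end Pool.Agent.W138.SH
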